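import Pool.Agent.Y405.KT.Lower

/-!
# The number of `k`-transitive subsets of the symmetric group (MP_c60ead_co)

Let `N(n, k)` be the number of `k`-transitive subsets of `S_n` and put `m = n - k - 1`.

* `N(n, k) = 1` for `m ≤ 0` (the whole group) and `N(n, n - 2) = 3` (the whole group, the even and
  the odd permutations), that is, `m = 1`.
* For `m ≥ 2` the number is doubly exponential in `n`: every multinomial coefficient
  `M = n! / (s₁! ⋯ s_m!)` with `s₁ + ⋯ + s_m = n` gives `N(n, k) ≥ 2 ^ M`, already for the sets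
  with `n! / 2` elements; hence `log₂ N(n, k) ≥ m ^ n / (n + 1) ^ m`. Conversely
  `N(n, k) ≤ (m + 1)! 2 ^ A`, where `A` is the number of permutations without an increasing
  subsequence of length `m + 1`, and `A ≤ m ^ (2 n)`.
* For `k = ⌊(n - 2) / 2⌋` (the question) `N(n, k) ≥ 2 ^ (n! / 2 ^ ⌊n / 2⌋)`.

Lower bound: fix a colouring `c` of the points with `m` colours (`s_i` points of colour `i`) and an
arbitrary set `H` of colourings, and take all permutations `y` which are even exactly when
`c ∘ y⁻¹` is in `H`. Among the `m + 1` points outside of a `k`-tuple two have the same colour and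
the multiplication by their transposition exchanges `Y` and its complement.

Upper bound: if `y` increases on a set of `m + 1` positions then `y` is lexicographically the
first permutation which agrees with `y` on the other `k` positions. So a `k`-transitive set is
determined by `r` and by its elements without increasing subsequence of length `m + 1`.
-/

set_option linter.unusedVariables false

namespace Pool.Agent.Results.MP_c60ead_co.CountTransitive

open Equiv Finset
open Pool.Agent.Results.MP_c60ead_co.Threshold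
open Pool.Agent.Y405.KT

lemma choose_le {n k : ℕ} (hk1 : 1 ≤ k) (hk : k + 3 ≤ n) (j : ℕ) (hj : j ≤ n) :
    2 ^ (n.choose j) ≤ countHalf n k := by
  obtain ⟨m, hm⟩ : ∃ m, n = k + (m + 2) + 1 := ⟨n - k - 3, by omega⟩
  let s : Fin (m + 2) → ℕ := Fin.cons j (Fin.cons (n - j) (fun _ => 0))
  have h1 : ∑ i, s i = n := by
    rw [Fin.sum_univ_succ, Fin.sum_univ_succ]
    simp only [s, Fin.cons_zero, Fin.cons_succ, Finset.sum_const_zero]
    omega
  have h2 : ∏ i, (s i).factorial = j.factorial * (n - j).factorial := by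
    rw [Fin.prod_univ_succ, Fin.prod_univ_succ]
    simp only [s, Fin.cons_zero, Fin.cons_succ, Nat.factorial_zero, Finset.prod_const_one,
      mul_one]
  have h3 := le_countHalf hk1 hm s h1
  unfold Nat.multinomial at h3
  rw [h1, h2, ← Nat.choose_eq_factorial_div_factorial hj] at h3
  exact h3

lemma exists_of_count {n k : ℕ} (h : 3 ≤ countHalf n k) :
    ∃ Y : Finset (Perm (Fin n)), IsKTransitive n k Y ∧ 2 * Y.card = n.factorial ∧
      Y ≠ evenPerms n ∧ Y ≠ (evenPerms n)ᶜ := by
  classical
  by_contra hc
  push Not at hc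
  have h1 : countHalf n k ≤
      Nat.card {Y : Finset (Perm (Fin n)) // Y ∈ ({evenPerms n, (evenPerms n)ᶜ} :
        Finset (Finset (Perm (Fin n))))} := by
    unfold countHalf
    refine Nat.card_le_card_of_injective (fun Y => ⟨Y.1, ?_⟩) ?_
    · rw [Finset.mem_insert, Finset.mem_singleton]
      by_cases h2 : Y.1 = evenPerms n
      · exact Or.inl h2
      · exact Or.inr (hc Y.1 Y.2.1 Y.2.2 h2)
    · intro Y Y' hY
      exact Subtype.ext (congrArg (fun Z => Z.1) hY)
  rw [Nat.card_eq_fintype_card, Fintype.card_coe] at h1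
  have h2 := Finset.card_le_two (a := evenPerms n) (b := (evenPerms n)ᶜ)
  omega

/-- **The number of `k`-transitive subsets of `S_n`.** `count n k` is the number of `k`-transitive
subsets of `S_n`, `countHalf n k` the number of those with exactly `n! / 2` elements, and
`avoid n l` is the set of the permutations without an increasing subsequence of length `l`. -/
theorem result :
    -- the threshold `k = n - 3`
    (∀ n k : ℕ, 4 ≤ n → 1 ≤ k → k ≤ n →
      (n ≤ k + 1 → count n k = 1) ∧
      (k + 2 = n → count n k = 3) ∧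
      (k + 3 ≤ n → ∀ j ≤ n, 2 ^ (n.choose j) ≤ countHalf n k)) ∧
    -- the only `(n - 2)`-transitive sets
    (∀ n : ℕ, 4 ≤ n → ∀ Y : Finset (Perm (Fin n)), IsKTransitive n (n - 2) Y ↔
      (Y = Finset.univ ∨ Y = evenPerms n ∨ Y = (evenPerms n)ᶜ)) ∧
    -- the two-sided bounds, `m = n - k - 1`
    (∀ n k m : ℕ, 1 ≤ k → 1 ≤ m → n = k + m + 1 →
      (∀ s : Fin m → ℕ, ∑ i, s i = n → 2 ^ (Nat.multinomial Finset.univ s) ≤ countHalf n k) ∧
      m ^ n ≤ (n + 1) ^ m * Nat.log 2 (countHalf n k) ∧
      countHalf n k ≤ count n k ∧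
      count n k ≤ (m + 1).factorial * 2 ^ (avoid n (m + 1)).card ∧
      (avoid n (m + 1)).card ≤ m ^ (2 * n)) ∧
    -- the question: `k = ⌊(n - 2) / 2⌋`
    (∀ n : ℕ, 4 ≤ n → 2 ^ (n.factorial / 2 ^ (n / 2)) ≤ countHalf n ((n - 2) / 2) ∧
      ∃ Y : Finset (Perm (Fin n)), IsKTransitive n ((n - 2) / 2) Y ∧ 2 * Y.card = n.factorial ∧
        Y ≠ evenPerms n ∧ Y ≠ (evenPerms n)ᶜ ∧ Y ≠ Finset.univ) := by
  refine ⟨?_, ?_, ?_, ?_⟩
  · intro n k hn hk1 hkn
    refine ⟨fun h => count_one hk1 hkn h, ?_, fun h j hj => choose_le hk1 h j hj⟩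
    intro h
    have h1 : k = n - 2 := by omega
    rw [h1]
    exact count_two hn
  · intro n hn Y
    exact iff_two hn Y
  · intro n k m hk1 hm hn
    refine ⟨fun s hs => le_countHalf hk1 hn s hs, pow_le hk1 hn, countHalf_le, ?_,
      card_avoid_le n m hm⟩
    have h1 := count_le (n := n) (k := k) hk1 (by omega)
    have h2 : n - k = m + 1 := by omega
    rw [h2] at h1
    exact h1
  · intro n hn
    have h0 := posed hn
    refine ⟨h0, ?_⟩
    have h1 := choose_le (n := n) (k := (n - 2) / 2) (by omega) (by omega) 1 (by omega)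
    rw [Nat.choose_one_right] at h1
    have h2 : 2 ^ 4 ≤ 2 ^ n := Nat.pow_le_pow_right (by norm_num) hn
    obtain ⟨Y, hY, hc, he, ho⟩ := exists_of_count (n := n) (k := (n - 2) / 2) (by
      have h3 : (2 : ℕ) ^ 4 = 16 := by norm_num
      omega)
    refine ⟨Y, hY, hc, he, ho, ?_⟩
    rintro rfl
    rw [Finset.card_univ, Fintype.card_perm, Fintype.card_fin] at hc
    have := Nat.factorial_pos n
    omega

end Pool.Agent.Results.MP_c60ead_co.CountTransitive
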